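import Pool.Agent.R69.Nice

/-!
# MP_abf784_co: a finite family of oriented graphs containing an oriented forest that is `k`-nice
for no `k ≥ 1`

The family `bad` consists of the directed path on four vertices (an oriented forest), the
transitive triangle and the cyclic triangle.
-/

set_option autoImplicit false

namespace Pool.Agent.Results.MP_abf784_co.NeverNice

open Pool.Agent.R69.Nice

/-- The answer to Q1 is negative: not every finite family of oriented graphs with an oriented
forest among its members is `k`-nice for infinitely many `k ≥ 1`. The finite family `bad` contains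
an oriented forest and satisfies `p_k ≤ 2 * 3 ^ (k - 1)` and `q_k = 3 ^ k` for every `k ≥ 1`; so it
is `k`-nice for no `k ≥ 1`. -/
theorem result :
    (¬ ∀ 𝓕 : Family, 𝓕.Finite → (∃ F ∈ 𝓕, F.2.IsForest) →
      {k : ℕ | 1 ≤ k ∧ IsNice 𝓕 k}.Infinite) ∧
    bad.Finite ∧ (∃ F ∈ bad, F.2.IsForest) ∧
    ∀ k : ℕ, 1 ≤ k → p bad k ≤ 2 * 3 ^ (k - 1) ∧ q bad k = 3 ^ k ∧ ¬ IsNice bad k := by
  have hF : ∃ F ∈ bad, F.2.IsForest := ⟨⟨4, dpath⟩, by simp [bad], dpath_forest⟩
  refine ⟨fun h => ?_, bad_finite, hF, fun k hk => ⟨(main k hk).1, (main k hk).2, not_nice k hk⟩⟩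
  obtain ⟨k, hk1, hk2⟩ := (h bad bad_finite hF).nonempty
  exact not_nice k hk1 hk2

end Pool.Agent.Results.MP_abf784_co.NeverNice
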